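import Mathlib

/-!
Hitting-time speedup of `k` parallel random walks: `h_max ≤ k h^k_max` on every finite strongly
connected digraph.

Idea.  Fix the target `v` and a start `w`, let `f x t` be the probability that the walk from `x`
has not hit `v` by time `t`, let `M = ∑ f w t` and let `F s = ∑_{t ≥ s} f w t`.  Averaging over the
occupation measure of the walk from `w` before it hits `v`, Jensen gives
`∑ (F s / M)^k ≤ max_x ∑ (f x s)^k`.  Telescoping gives `M^k ≤ k ∑ (F s)^(k-1) f w s`, and the
inequality of arithmetic and geometric means bounds the last sum by the two previous ones.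
-/

set_option autoImplicit false
set_option linter.unusedSectionVars false

open MeasureTheory ProbabilityTheory Finset
open scoped ENNReal

namespace Pool.Agent.Results.MP_990fd9_pr.HitSpeedup

section Definitions

variable {V : Type*}

/-- Every vertex is reachable from every vertex along directed edges. -/
def StronglyConnected (G : Digraph V) : Prop :=
  ∀ x y : V, Relation.ReflTransGen G.Adj x y

open Classical in
/-- One step of simple random walk: a uniformly random out-neighbour of `x`
(and `x` itself in the degenerate case where `x` has no out-neighbour). -/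
noncomputable def stepLaw [Fintype V] (G : Digraph V) (x : V) : PMF V :=
  if h : (Finset.univ.filter (fun y => G.Adj x y)).Nonempty then
    PMF.uniformOfFinset (Finset.univ.filter (fun y => G.Adj x y)) h
  else PMF.pure x

variable [Fintype V] [MeasurableSpace V] [DiscreteMeasurableSpace V]

/-- The transition kernel: given the path up to time `n`, the next position has law
`stepLaw` of the current position. -/
noncomputable def stepKernel (G : Digraph V) (n : ℕ) : Kernel (Finset.Iic n → V) V :=
  (Kernel.ofFunOfCountable (fun x => (stepLaw G x).toMeasure)).comap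
    (fun path => path ⟨n, Finset.mem_Iic.2 le_rfl⟩) (measurable_pi_apply _)

instance (G : Digraph V) (n : ℕ) : IsMarkovKernel (stepKernel G n) := by
  constructor
  intro a
  rw [stepKernel, Kernel.comap_apply]
  change IsProbabilityMeasure (stepLaw G _).toMeasure
  infer_instance

/-- The law (on the space of infinite paths) of simple random walk started at `u`. -/
noncomputable def walkLaw (G : Digraph V) (u : V) : Measure (ℕ → V) :=
  Kernel.trajMeasure (X := fun _ => V) (Measure.dirac u) (stepKernel G)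

instance (G : Digraph V) (u : V) : IsProbabilityMeasure (walkLaw G u) := by
  unfold walkLaw; infer_instance

/-- The hitting time `min {t ≥ 0 : ω t = v}` of a path (`∞` if `v` is never visited). -/
noncomputable def hitTime (v : V) (ω : ℕ → V) : ℝ≥0∞ :=
  ⨅ (t : ℕ) (_ : ω t = v), (t : ℝ≥0∞)

/-- `h(u,v)`: expected hitting time of `v` for the walk started at `u`. -/
noncomputable def hit (G : Digraph V) (u v : V) : ℝ≥0∞ :=
  ∫⁻ ω, hitTime v ω ∂(walkLaw G u)

/-- `h({u_1,…,u_k},v)`: expected joint hitting time of `v` for `k` independent walks started at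
`u_1,…,u_k`. -/
noncomputable def jointHit (G : Digraph V) {k : ℕ} (u : Fin k → V) (v : V) : ℝ≥0∞ :=
  ∫⁻ ω : Fin k → ℕ → V, ⨅ i, hitTime v (ω i) ∂(Measure.pi fun i => walkLaw G (u i))

/-- `h_max = max_{u,v} h(u,v)`. -/
noncomputable def hitMax (G : Digraph V) : ℝ≥0∞ := ⨆ (u : V) (v : V), hit G u v

/-- `h^k_max`: the maximum of `h({u_1,…,u_k},v)` over all starting vertices `u_1,…,u_k` and
targets `v`. -/
noncomputable def jointHitMax (G : Digraph V) (k : ℕ) : ℝ≥0∞ :=
  ⨆ (u : Fin k → V) (v : V), jointHit G u v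


end Definitions

section Analysis

/-- binomial type bound -/
lemma pow_add_le (b f : ℝ≥0∞) (m : ℕ) :
    (b + f) ^ (m + 1) ≤ b ^ (m + 1) + (m + 1 : ℕ) * ((b + f) ^ m * f) := by
  induction m with
  | zero => simp
  | succ m ih =>
    calc (b + f) ^ (m + 1 + 1) = (b + f) ^ (m + 1) * b + (b + f) ^ (m + 1) * f := by ring
      _ ≤ (b ^ (m + 1) + (m + 1 : ℕ) * ((b + f) ^ m * f)) * b + (b + f) ^ (m + 1) * f := by
          gcongr
      _ ≤ (b ^ (m + 1) * b + (m + 1 : ℕ) * ((b + f) ^ m * f) * (b + f)) + (b + f) ^ (m + 1) * f := by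
          rw [add_mul]
          gcongr
          exact le_self_add
      _ = b ^ (m + 1 + 1) + (m + 1 + 1 : ℕ) * ((b + f) ^ (m + 1) * f) := by
          push_cast; ring

lemma young_pow_real (a b : ℝ) (ha : 0 ≤ a) (hb : 0 ≤ b) (m : ℕ) :
    (m + 1 : ℝ) * (a ^ m * b) ≤ m * a ^ (m + 1) + b ^ (m + 1) := by
  rcases ha.eq_or_lt with h0 | hpos
  · subst h0
    cases m with
    | zero => simp
    | succ m => simp; positivity
  · have h := one_add_mul_sub_le_pow (a := b / a) (n := m + 1)
      (by have : 0 ≤ b / a := by positivity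
          linarith)
    have h2 := mul_le_mul_of_nonneg_left h (pow_nonneg ha (m + 1))
    rw [div_pow, mul_div_cancel₀ _ (by positivity)] at h2
    have h3 : a ^ (m + 1) * (1 + ((m + 1 : ℕ) : ℝ) * (b / a - 1)) =
        (m + 1) * (a ^ m * b) - m * a ^ (m + 1) := by
      field_simp
      push_cast
      ring
    linarith

lemma young_pow (a b : ℝ≥0∞) (m : ℕ) :
    (m + 1 : ℕ) * (a ^ m * b) ≤ m * a ^ (m + 1) + b ^ (m + 1) := by
  by_cases hb : b = ∞
  · subst hb; simp
  by_cases ha : a = ∞
  · subst ha
    cases m with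
    | zero => simp
    | succ m => 
      have h1 : (∞ : ℝ≥0∞) ^ (m + 1 + 1) = ∞ := ENNReal.top_pow (by simp)
      have h2 : ((m + 1 : ℕ) : ℝ≥0∞) * ∞ = ∞ := ENNReal.mul_top (by simp)
      rw [h1, h2]; simp
  lift a to NNReal using ha
  lift b to NNReal using hb
  have := young_pow_real a b a.2 b.2 m
  have h : ((m + 1 : ℕ) : NNReal) * (a ^ m * b) ≤ m * a ^ (m + 1) + b ^ (m + 1) := by
    rw [← NNReal.coe_le_coe]; push_cast; exact this
  exact_mod_cast h

lemma jensen_pow {ι : Type*} (s : Finset ι) (w f : ι → ℝ≥0∞) (m : ℕ) :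
    (∑ i ∈ s, w i * f i) ^ (m + 1) ≤ (∑ i ∈ s, w i) ^ m * ∑ i ∈ s, w i * f i ^ (m + 1) := by
  have hm : (0 : ℝ) < (m + 1 : ℕ) := by positivity
  have h := ENNReal.inner_le_weight_mul_Lp_of_nonneg s (p := ((m + 1 : ℕ) : ℝ))
    (by push_cast; linarith [(Nat.cast_nonneg m : (0:ℝ) ≤ m)]) w f
  have h2 := pow_le_pow_left' h (m + 1)
  refine h2.trans (le_of_eq ?_)
  rw [mul_pow, ← ENNReal.rpow_natCast, ← ENNReal.rpow_natCast, ← ENNReal.rpow_mul, ← ENNReal.rpow_mul,
    inv_mul_cancel₀ hm.ne', ENNReal.rpow_one]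
  have : (1 - ((m + 1 : ℕ) : ℝ)⁻¹) * ((m + 1 : ℕ) : ℝ) = (m : ℕ) := by
    field_simp; push_cast; ring
  rw [this, ENNReal.rpow_natCast]
  simp only [ENNReal.rpow_natCast]

section Chain

variable {V : Type*} [Fintype V] [DecidableEq V] (p : V → V → ℝ≥0∞) (v : V)

/-- probability that the chain started at x avoids v up to time t (first step recursion) -/
noncomputable def S : ℕ → V → ℝ≥0∞
  | 0, x => if x = v then 0 else 1
  | t + 1, x => if x = v then 0 else ∑ y, p x y * S t y

/-- probability that the chain started at w is at y at time t and has avoided v -/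
noncomputable def Q (w : V) : ℕ → V → ℝ≥0∞
  | 0, y => if y = w ∧ y ≠ v then 1 else 0
  | t + 1, z => if z = v then 0 else ∑ y, Q w t y * p y z

lemma S_self (t : ℕ) : S p v t v = 0 := by cases t <;> simp [S]

lemma Q_self (w : V) (t : ℕ) : Q p v w t v = 0 := by cases t <;> simp [Q]

lemma sum_Q_S (w : V) (t s : ℕ) : ∑ x, Q p v w t x * S p v s x = S p v (t + s) w := by
  induction t generalizing s with
  | zero =>
    rw [Finset.sum_eq_single w]
    · by_cases h : w = v
      · subst h; simp [S_self]
      · simp [Q, h]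
    · intro b _ hb; simp [Q, hb]
    · intro h; exact absurd (Finset.mem_univ _) h
  | succ t ih =>
    have : t + 1 + s = t + (s + 1) := by ring
    rw [this, ← ih (s + 1)]
    simp only [Q, S]
    have h1 : ∀ x, (if x = v then 0 else ∑ y, Q p v w t y * p y x) * S p v s x
        = ∑ y, Q p v w t y * p y x * S p v s x := by
      intro x
      by_cases h : x = v
      · subst h; simp [S_self]
      · simp [h, Finset.sum_mul]
    have h2 : ∀ y, (Q p v w t y * if y = v then 0 else ∑ z, p y z * S p v s z)
        = ∑ z, Q p v w t y * p y z * S p v s z := by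
      intro y
      by_cases h : y = v
      · subst h; simp [Q_self]
      · simp [h, Finset.mul_sum, mul_assoc]
    simp_rw [h1, h2]
    exact Finset.sum_comm

lemma sum_Q (w : V) (t : ℕ) : ∑ x, Q p v w t x = S p v t w := by
  have := sum_Q_S p v w t 0
  rw [add_zero] at this
  rw [← this]
  refine Finset.sum_congr rfl fun x _ => ?_
  by_cases h : x = v
  · subst h; simp [Q_self]
  · simp [S, h]

/-- Main inequality for a chain with finite expected hitting time from `w`. -/
theorem main_ineq (w : V) (hfin : ∑' t, S p v t w ≠ ∞) (m : ℕ) :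
    ∑' t, S p v t w ≤ (m + 1 : ℕ) * ⨆ x, ∑' t, (S p v t x) ^ (m + 1) := by
  set H := ⨆ x, ∑' t, (S p v t x) ^ (m + 1) with hH
  set M := ∑' t, S p v t w with hM
  let g : V → ℝ≥0∞ := fun x => ∑' t, Q p v w t x
  let F : ℕ → ℝ≥0∞ := fun s => ∑' t, S p v (t + s) w
  have hgM : ∑ x, g x = M := by
    simp only [g]
    rw [← (Summable.tsum_finsetSum (fun i _ => ENNReal.summable))]
    simp_rw [sum_Q]
    rfl
  have hgF : ∀ s, ∑ x, g x * S p v s x = F s := by
    intro s
    simp only [g, F]
    simp_rw [← ENNReal.tsum_mul_right]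
    rw [← (Summable.tsum_finsetSum (fun i _ => ENNReal.summable))]
    simp_rw [sum_Q_S]
  have hF0 : F 0 = M := by simp [F, hM]
  have hFsucc : ∀ s, F s = F (s + 1) + S p v s w := by
    intro s
    simp only [F]
    rw [tsum_eq_zero_add' ENNReal.summable]
    rw [add_comm]
    congr 1
    · refine tsum_congr fun t => ?_
      congr 1; ring
    · simp
  -- telescoping
  have htel : ∀ n, M ^ (m + 1) ≤ F n ^ (m + 1) +
      (m + 1 : ℕ) * ∑ s ∈ Finset.range n, F s ^ m * S p v s w := by
    intro n
    induction n with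
    | zero => simp [hF0]
    | succ n ih =>
      refine ih.trans ?_
      rw [Finset.sum_range_succ, mul_add, ← add_assoc, add_right_comm]
      gcongr
      have := pow_add_le (F (n + 1)) (S p v n w) m
      rw [← hFsucc n] at this
      exact this
  have hFtend : Filter.Tendsto F Filter.atTop (nhds 0) := by
    have := ENNReal.tendsto_sum_nat_add (fun t => S p v t w) hfin
    exact this
  have htel2 : M ^ (m + 1) ≤ (m + 1 : ℕ) * ∑' s, F s ^ m * S p v s w := by
    have h1 : ∀ n, M ^ (m + 1) ≤ F n ^ (m + 1) + (m + 1 : ℕ) * ∑' s, F s ^ m * S p v s w := by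
      intro n
      refine (htel n).trans ?_
      gcongr
      exact ENNReal.sum_le_tsum _
    have h2 : Filter.Tendsto (fun n => F n ^ (m + 1) + (m + 1 : ℕ) * ∑' s, F s ^ m * S p v s w)
        Filter.atTop (nhds (0 + (m + 1 : ℕ) * ∑' s, F s ^ m * S p v s w)) := by
      refine Filter.Tendsto.add ?_ tendsto_const_nhds
      have := ENNReal.Tendsto.pow (n := m + 1) hFtend
      simpa using this
    rw [zero_add] at h2
    exact ge_of_tendsto' h2 h1
  -- Jensen
  have hJ : ∑' s, F s ^ (m + 1) ≤ M ^ (m + 1) * H := by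
    calc ∑' s, F s ^ (m + 1) ≤ ∑' s, M ^ m * ∑ x, g x * S p v s x ^ (m + 1) := by
          refine ENNReal.tsum_le_tsum fun s => ?_
          rw [← hgF s, ← hgM]
          exact jensen_pow _ _ _ m
      _ = M ^ m * ∑ x, g x * ∑' s, S p v s x ^ (m + 1) := by
          rw [ENNReal.tsum_mul_left, (Summable.tsum_finsetSum (fun i _ => ENNReal.summable))]
          simp_rw [ENNReal.tsum_mul_left]
      _ ≤ M ^ m * ∑ x, g x * H := by
          gcongr with x _
          exact le_iSup (fun x => ∑' t, (S p v t x) ^ (m + 1)) x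
      _ = M ^ (m + 1) * H := by
          rw [← Finset.sum_mul, hgM]; ring
  have hf : ∑' s, S p v s w ^ (m + 1) ≤ H :=
    le_iSup (fun x => ∑' t, (S p v t x) ^ (m + 1)) w
  -- Young
  have hY : (m + 1 : ℕ) * (M * ∑' s, F s ^ m * S p v s w) ≤ (m + 1 : ℕ) * (M ^ (m + 1) * H) := by
    calc (m + 1 : ℕ) * (M * ∑' s, F s ^ m * S p v s w)
        = ∑' s, ((m + 1 : ℕ) : ℝ≥0∞) * (F s ^ m * (M * S p v s w)) := by
          rw [← ENNReal.tsum_mul_left, ← ENNReal.tsum_mul_left]
          refine tsum_congr fun s => ?_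
          ring
      _ ≤ ∑' s, ((m : ℝ≥0∞) * F s ^ (m + 1) + (M * S p v s w) ^ (m + 1)) := by
          refine ENNReal.tsum_le_tsum fun s => ?_
          exact young_pow _ _ m
      _ = m * ∑' s, F s ^ (m + 1) + M ^ (m + 1) * ∑' s, S p v s w ^ (m + 1) := by
          rw [ENNReal.tsum_add, ENNReal.tsum_mul_left]
          simp_rw [mul_pow]
          rw [ENNReal.tsum_mul_left]
      _ ≤ m * (M ^ (m + 1) * H) + M ^ (m + 1) * H := by
          gcongr
      _ = (m + 1 : ℕ) * (M ^ (m + 1) * H) := by
          push_cast; ring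
  by_cases hM0 : M = 0
  · rw [hM0]; exact zero_le
  have hfinal : M ^ (m + 1) * M ≤ M ^ (m + 1) * ((m + 1 : ℕ) * H) := by
    calc M ^ (m + 1) * M ≤ ((m + 1 : ℕ) * ∑' s, F s ^ m * S p v s w) * M := by gcongr
      _ = (m + 1 : ℕ) * (M * ∑' s, F s ^ m * S p v s w) := by ring
      _ ≤ (m + 1 : ℕ) * (M ^ (m + 1) * H) := hY
      _ = M ^ (m + 1) * ((m + 1 : ℕ) * H) := by ring
  exact (ENNReal.mul_le_mul_iff_right (pow_ne_zero _ hM0) (ENNReal.pow_ne_top hfin)).1 hfinal

end Chain


end Analysis

variable {V : Type*} [Fintype V] [MeasurableSpace V] [DiscreteMeasurableSpace V]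

lemma iInf_eq_tsum (A : Set ℕ) [DecidablePred fun t => ∀ s ≤ t, s ∉ A] :
    ⨅ (t : ℕ) (_ : t ∈ A), (t : ℝ≥0∞) = ∑' t : ℕ, if ∀ s ≤ t, s ∉ A then 1 else 0 := by
  classical
  by_cases h : ∃ t, t ∈ A
  · have hn := Nat.find_spec h
    set n := Nat.find h with hndef
    have hmin : ∀ s, s < n → s ∉ A := fun s hs => Nat.find_min h hs
    have h1 : ⨅ (t : ℕ) (_ : t ∈ A), (t : ℝ≥0∞) = n := by
      apply le_antisymm
      · exact iInf₂_le n hn
      · refine le_iInf₂ fun t ht => ?_
        have : n ≤ t := by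
          by_contra hlt
          exact hmin t (not_le.1 hlt) ht
        exact_mod_cast this
    have h2 : ∀ t, (∀ s ≤ t, s ∉ A) ↔ t < n := by
      intro t
      constructor
      · intro ht
        by_contra hle
        exact ht n (not_lt.1 hle) hn
      · intro ht s hs
        exact hmin s (lt_of_le_of_lt hs ht)
    rw [h1]
    simp_rw [h2]
    rw [tsum_eq_sum (s := Finset.range n)]
    · rw [Finset.sum_congr rfl (g := fun _ => (1 : ℝ≥0∞))]
      · simp
      · intro x hx; simp [Finset.mem_range.1 hx]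
    · intro b hb
      simp only [Finset.mem_range] at hb
      simp [hb]
  · push Not at h
    have : ∀ t : ℕ, (∀ s ≤ t, s ∉ A) ↔ True := fun t => by simp [h]
    simp only [this, if_true]
    simp [h]

lemma iInf_hitTime {k : ℕ} (v : V) (ω : Fin k → ℕ → V) :
    ⨅ i, hitTime v (ω i) = 
      ∑' t : ℕ, Set.indicator {ω : Fin k → ℕ → V | ∀ i, ∀ s ≤ t, ω i s ≠ v} (fun _ => (1 : ℝ≥0∞)) ω := by
  classical
  have := iInf_eq_tsum {t | ∃ i, ω i t = v}
  unfold hitTime
  rw [iInf_comm]
  have h2 : ∀ t : ℕ, (⨅ i, ⨅ (_ : ω i t = v), (t : ℝ≥0∞)) = ⨅ (_ : t ∈ {t | ∃ i, ω i t = v}), (t : ℝ≥0∞) := by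
    intro t
    simp [iInf_exists]
  simp_rw [h2, this]
  refine tsum_congr fun t => ?_
  rw [Set.indicator_apply]
  congr 1
  simp only [Set.mem_ofPred_eq, eq_iff_iff, ne_eq, not_exists]
  exact ⟨fun h i s hs => h s hs i, fun h s hs i => h i s hs⟩

/-- the event of avoiding `v` up to time `t` -/
def avoid (v : V) (t : ℕ) : Set (ℕ → V) := {ω | ∀ s ≤ t, ω s ≠ v}

lemma measurableSet_coord (t : ℕ) (x : V) : MeasurableSet {ω : ℕ → V | ω t = x} := by
  have : {ω : ℕ → V | ω t = x} = (fun ω : ℕ → V => ω t) ⁻¹' {x} := by ext ω; simp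
  rw [this]
  exact (measurable_pi_apply t) (MeasurableSet.singleton x)

lemma measurableSet_avoid (v : V) (t : ℕ) : MeasurableSet (avoid v t) := by
  have : avoid v t = ⋂ s ∈ Finset.Iic t, (fun ω : ℕ → V => ω s) ⁻¹' {v}ᶜ := by
    ext ω; simp [avoid]
  rw [this]
  exact Finset.measurableSet_biInter _ fun s _ => (measurable_pi_apply s) (MeasurableSet.of_discrete)

lemma jointHit_eq (G : Digraph V) {k : ℕ} (u : Fin k → V) (v : V) :
    jointHit G u v = ∑' t : ℕ, ∏ i, walkLaw G (u i) (avoid v t) := by
  unfold jointHit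
  simp_rw [iInf_hitTime]
  have hset : ∀ t : ℕ, {ω : Fin k → ℕ → V | ∀ i, ∀ s ≤ t, ω i s ≠ v} = Set.pi Set.univ (fun _ => avoid v t) := by
    intro t; ext ω; simp [avoid]
  have hm : ∀ t : ℕ, MeasurableSet {ω : Fin k → ℕ → V | ∀ i, ∀ s ≤ t, ω i s ≠ v} := by
    intro t
    rw [hset t]
    exact MeasurableSet.univ_pi fun i => measurableSet_avoid v t
  rw [lintegral_tsum]
  · refine tsum_congr fun t => ?_
    rw [lintegral_indicator_const (hm t), one_mul, hset t, Measure.pi_pi]
  · intro t
    exact (measurable_const.indicator (hm t)).aemeasurable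

lemma hit_eq (G : Digraph V) (u v : V) :
    hit G u v = ∑' t : ℕ, walkLaw G u (avoid v t) := by
  classical
  unfold hit
  have h1 : ∀ ω : ℕ → V, hitTime v ω = ∑' t : ℕ, Set.indicator (avoid v t) (fun _ => (1 : ℝ≥0∞)) ω := by
    intro ω
    have := iInf_hitTime v (fun _ : Fin 1 => ω)
    rw [ciInf_const] at this
    rw [this]
    refine tsum_congr fun t => ?_
    rw [Set.indicator_apply, Set.indicator_apply]
    congr 1
    simp [avoid]
  simp_rw [h1]
  rw [lintegral_tsum]
  · refine tsum_congr fun t => ?_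
    rw [lintegral_indicator_const (measurableSet_avoid v t), one_mul]
  · intro t
    exact (measurable_const.indicator (measurableSet_avoid v t)).aemeasurable


lemma map_zero (G : Digraph V) (u : V) :
    (walkLaw G u).map (fun ω => ω 0) = Measure.dirac u := by
  unfold walkLaw Kernel.trajMeasure
  have h0 : (fun ω : ℕ → V => ω 0) = (fun x : (Finset.Iic 0 → V) => x ⟨0, by simp⟩) ∘ (Preorder.frestrictLe 0) := by
    ext ω; rfl
  rw [h0, ← Measure.map_map (by fun_prop) (by fun_prop)]
  rw [Measure.map_comp _ _ (by fun_prop), Kernel.traj_map_frestrictLe, Kernel.partialTraj_self,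
    Measure.id_comp]
  rw [Measure.map_map (by fun_prop) (by fun_prop)]
  exact Measure.map_id (μ := Measure.dirac u)

lemma step_meas (G : Digraph V) (u : V) (t : ℕ) (A : Set (Finset.Iic t → V)) (z : V) :
    walkLaw G u ((Preorder.frestrictLe t) ⁻¹' A ∩ {ω | ω (t + 1) = z}) =
      ∫⁻ ω in (Preorder.frestrictLe t) ⁻¹' A, stepLaw G (ω t) z ∂(walkLaw G u) := by
  have hA : MeasurableSet A := MeasurableSet.of_discrete
  have key := congrArg (fun μ => μ (A ×ˢ {z}))
    (Kernel.map_frestrictLe_trajMeasure_compProd_eq_map_trajMeasure (X := fun _ => V)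
      (μ₀ := Measure.dirac u) (κ := stepKernel G) (a := t))
  beta_reduce at key
  rw [Measure.compProd_apply_prod hA (MeasurableSet.singleton z), Measure.map_apply (by fun_prop)
    (hA.prod (MeasurableSet.singleton z)), setLIntegral_map hA (Kernel.measurable_coe _ (MeasurableSet.singleton z)) (by fun_prop)] at key
  unfold walkLaw
  have hs : (fun x : ℕ → V => (Preorder.frestrictLe (π := fun _ => V) t x, x (t + 1))) ⁻¹' A ×ˢ {z} = 
    (Preorder.frestrictLe t) ⁻¹' A ∩ {ω | ω (t + 1) = z} := by
    ext ω; simp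
  rw [hs] at key
  rw [← key]
  refine lintegral_congr fun ω => ?_
  rw [stepKernel, Kernel.comap_apply]
  change (stepLaw G (ω t)).toMeasure {z} = _
  rw [PMF.toMeasure_apply_singleton _ _ (MeasurableSet.singleton z)]

/-- probability of being at `y` at time `t` and having avoided `v` -/
noncomputable def q (G : Digraph V) (v u : V) (t : ℕ) (y : V) : ℝ≥0∞ :=
  walkLaw G u (avoid v t ∩ {ω | ω t = y})

lemma q_eq (G : Digraph V) [DecidableEq V] (v u : V) (t : ℕ) (y : V) :
    q G v u t y = Q (fun x y => stepLaw G x y) v u t y := by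
  induction t generalizing y with
  | zero =>
    have h := congrArg (fun μ => μ ({y} \ {v})) (map_zero G u)
    beta_reduce at h
    rw [Measure.map_apply (by fun_prop) MeasurableSet.of_discrete] at h
    have hs : (fun ω : ℕ → V => ω 0) ⁻¹' ({y} \ {v}) = avoid v 0 ∩ {ω | ω 0 = y} := by
      ext ω; simp [avoid, and_comm]
    rw [hs] at h
    unfold q
    rw [h, Measure.dirac_apply' _ MeasurableSet.of_discrete, Q, Set.indicator_apply]
    simp only [Set.mem_sdiff, Set.mem_singleton_iff, Pi.one_apply]
    by_cases hy : y = u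
    · subst hy; simp
    · have : u ≠ y := fun h => hy h.symm
      simp [hy, this]
  | succ t ih =>
    rw [Q]
    by_cases hy : y = v
    · subst hy
      have : avoid y (t + 1) ∩ {ω | ω (t + 1) = y} = ∅ := by
        ext ω
        simp only [avoid, Set.mem_inter_iff, Set.mem_ofPred_eq, Set.mem_empty_iff_false, iff_false, not_and]
        intro h; exact h (t + 1) le_rfl
      simp [q, this]
    · rw [if_neg hy]
      have hset : avoid v (t + 1) ∩ {ω | ω (t + 1) = y} =
          (Preorder.frestrictLe (π := fun _ => V) t) ⁻¹' {x | ∀ s, x s ≠ v} ∩ {ω | ω (t + 1) = y} := by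
        ext ω
        simp only [avoid, Set.mem_inter_iff, Set.mem_ofPred_eq, Set.mem_preimage]
        constructor
        · rintro ⟨h1, h2⟩
          exact ⟨fun s => h1 s ((Finset.mem_Iic.1 s.2).trans (Nat.le_succ t)), h2⟩
        · rintro ⟨h1, h2⟩
          refine ⟨fun s hs => ?_, h2⟩
          rcases Nat.lt_or_ge t s with h3 | h3
          · have : s = t + 1 := by omega
            subst this; rw [h2]; exact hy
          · exact h1 ⟨s, Finset.mem_Iic.2 h3⟩
      have hset2 : (Preorder.frestrictLe (π := fun _ => V) t) ⁻¹' {x | ∀ s, x s ≠ v} = avoid v t := by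
        ext ω
        simp only [avoid, Set.mem_ofPred_eq, Set.mem_preimage]
        constructor
        · intro h s hs
          exact h ⟨s, Finset.mem_Iic.2 hs⟩
        · intro h s
          exact h s (Finset.mem_Iic.1 s.2)
      unfold q
      rw [hset, step_meas, hset2]
      have hdecomp : ∀ ω : ℕ → V, stepLaw G (ω t) y = ∑ x, Set.indicator {ω : ℕ → V | ω t = x} (fun _ => stepLaw G x y) ω := by
        intro ω
        rw [Finset.sum_eq_single (ω t)]
        · simp
        · intro b _ hb
          rw [Set.indicator_of_notMem]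
          exact fun h => hb h.symm
        · intro h; exact absurd (Finset.mem_univ _) h
      simp_rw [hdecomp]
      rw [lintegral_finsetSum]
      · refine Finset.sum_congr rfl fun x _ => ?_
        have hmx : MeasurableSet {ω : ℕ → V | ω t = x} := measurableSet_coord t x
        rw [lintegral_indicator_const hmx, ← ih x, q, Measure.restrict_apply hmx, Set.inter_comm, mul_comm]
      · intro x _
        have hmx : MeasurableSet {ω : ℕ → V | ω t = x} := measurableSet_coord t x
        exact measurable_const.indicator hmx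

lemma walkLaw_avoid (G : Digraph V) [DecidableEq V] (v u : V) (t : ℕ) :
    walkLaw G u (avoid v t) = S (fun x y => stepLaw G x y) v t u := by
  rw [← sum_Q]
  simp_rw [← q_eq, q]
  have : avoid v t = ⋃ y ∈ (Finset.univ : Finset V), (avoid v t ∩ {ω | ω t = y}) := by
    ext ω; simp
  conv_lhs => rw [this]
  rw [measure_biUnion_finset]
  · intro a _ b _ hab
    refine Set.disjoint_left.2 ?_
    rintro ω ⟨_, h1⟩ ⟨_, h2⟩
    exact hab (h1.symm.trans h2)
  · intro b _
    exact (measurableSet_avoid v t).inter (measurableSet_coord t b)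


lemma S_antitone {p : V → V → ℝ≥0∞} [DecidableEq V] (hp : ∀ x, ∑ y, p x y = 1) (v : V) (t : ℕ) (x : V) :
    S p v (t + 1) x ≤ S p v t x := by
  induction t generalizing x with
  | zero =>
    by_cases h : x = v
    · simp [S, h]
    · simp only [S, h, if_false]
      calc ∑ y, p x y * (if y = v then 0 else 1) ≤ ∑ y, p x y * 1 := by
            gcongr with y _
            split_ifs <;> simp
        _ = 1 := by simp [hp]
  | succ t ih =>
    by_cases h : x = v
    · simp [S, h]
    · rw [S, S, if_neg h, if_neg h]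
      gcongr with y _
      exact ih y

lemma S_le_one {p : V → V → ℝ≥0∞} [DecidableEq V] (hp : ∀ x, ∑ y, p x y = 1) (v : V) (t : ℕ) (x : V) :
    S p v t x ≤ 1 := by
  induction t with
  | zero => simp only [S]; split_ifs <;> simp
  | succ t ih => exact (S_antitone hp v t x).trans ih

lemma exists_S_lt_one {p : V → V → ℝ≥0∞} [DecidableEq V] (hp : ∀ x, ∑ y, p x y = 1) (v : V)
    (x : V) (hx : Relation.ReflTransGen (fun x y => p x y ≠ 0) x v) : ∃ n, S p v n x < 1 := by
  induction hx using Relation.ReflTransGen.head_induction_on with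
  | refl => exact ⟨0, by simp [S]⟩
  | head hxy _ ih =>
    rename_i x y _
    obtain ⟨n, hn⟩ := ih
    refine ⟨n + 1, ?_⟩
    by_cases h : x = v
    · simp [S, h]
    · rw [S, if_neg h, ← hp x]
      have hfin : ∀ z, p x z ≠ ∞ := by
        intro z
        have : p x z ≤ 1 := by
          rw [← hp x]; exact Finset.single_le_sum (f := fun z => p x z) (fun _ _ => zero_le) (Finset.mem_univ z)
        exact ne_top_of_le_ne_top ENNReal.one_ne_top this
      rw [← Finset.add_sum_erase _ _ (Finset.mem_univ y),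
        ← Finset.add_sum_erase _ (fun z => p x z) (Finset.mem_univ y)]
      have hle1 : ∑ z ∈ Finset.univ.erase y, p x z * S p v n z ≤ ∑ z ∈ Finset.univ.erase y, p x z := by
        refine Finset.sum_le_sum fun z _ => ?_
        exact mul_le_of_le_one_right' (S_le_one hp v n z)
      have hle2 : ∑ z ∈ Finset.univ.erase y, p x z ≠ ∞ := by
        exact (ENNReal.sum_lt_top.2 fun z _ => (hfin z).lt_top).ne
      rw [add_comm, add_comm (p x y)]
      rw [add_comm, add_comm _ (p x y)]
      refine ENNReal.add_lt_add_of_lt_of_le (ne_top_of_le_ne_top hle2 hle1) ?_ hle1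
      calc p x y * S p v n y < p x y * 1 := 
            ENNReal.mul_lt_mul_right hxy (hfin y) hn
        _ = p x y := mul_one _

lemma tsum_S_ne_top {p : V → V → ℝ≥0∞} [DecidableEq V] (hp : ∀ x, ∑ y, p x y = 1) (v : V)
    (hx : ∀ x, Relation.ReflTransGen (fun x y => p x y ≠ 0) x v) (w : V) :
    ∑' t, S p v t w ≠ ∞ := by
  choose n hn using fun x => exists_S_lt_one hp v x (hx x)
  set N := Finset.univ.sup n with hN
  have hanti : ∀ x, Antitone (fun t => S p v t x) := fun x => antitone_nat_of_succ_le (fun t => S_antitone hp v t x)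
  have h1 : ∀ x, S p v N x < 1 := fun x =>
    lt_of_le_of_lt (hanti x (Finset.le_sup (f := n) (Finset.mem_univ x))) (hn x)
  set δ := Finset.univ.sup (fun x => S p v N x) with hδ
  have hδ1 : δ < 1 := by
    rw [hδ, Finset.sup_lt_iff (by simp)]
    exact fun x _ => h1 x
  have h2 : ∀ t, S p v (t + N) w ≤ δ * S p v t w := by
    intro t
    rw [← sum_Q_S, ← sum_Q, Finset.mul_sum]
    refine Finset.sum_le_sum fun x _ => ?_
    rw [mul_comm]
    gcongr
    exact Finset.le_sup (f := fun x => S p v N x) (Finset.mem_univ x)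
  set K : ℝ≥0∞ := N / (1 - δ) with hK
  have hpos : (1 - δ) ≠ 0 := by
    exact (tsub_pos_of_lt hδ1).ne'
  have h3 : ∀ m, ∑ t ∈ Finset.range m, S p v t w ≤ K := by
    intro m
    have hfinT : ∑ t ∈ Finset.range m, S p v t w ≠ ∞ := by
      refine (ENNReal.sum_lt_top.2 fun t _ => ?_).ne
      exact lt_of_le_of_lt (S_le_one hp v t w) ENNReal.one_lt_top
    have h4 : ∑ t ∈ Finset.range m, S p v t w ≤ N + δ * ∑ t ∈ Finset.range m, S p v t w := by
      calc ∑ t ∈ Finset.range m, S p v t w ≤ ∑ t ∈ Finset.range (N + m), S p v t w := by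
            refine Finset.sum_le_sum_of_subset ?_
            exact Finset.range_mono (by omega)
        _ = ∑ t ∈ Finset.range N, S p v t w + ∑ t ∈ Finset.range m, S p v (N + t) w := by
            rw [Finset.sum_range_add]
        _ ≤ ∑ t ∈ Finset.range N, 1 + ∑ t ∈ Finset.range m, δ * S p v t w := by
            gcongr with t _ t _
            · exact S_le_one hp v t w
            · rw [add_comm]; exact h2 t
        _ = N + δ * ∑ t ∈ Finset.range m, S p v t w := by
            rw [Finset.mul_sum]; simp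
    rw [hK, ENNReal.le_div_iff_mul_le (Or.inl hpos) (Or.inr (by simp))]
    have h5 : (∑ t ∈ Finset.range m, S p v t w) * (1 - δ) + δ * (∑ t ∈ Finset.range m, S p v t w) 
      = ∑ t ∈ Finset.range m, S p v t w := by
      rw [mul_comm δ, ← mul_add, tsub_add_cancel_of_le hδ1.le, mul_one]
    have hδT : δ * (∑ t ∈ Finset.range m, S p v t w) ≠ ∞ :=
      ENNReal.mul_ne_top (ne_top_of_lt hδ1) hfinT
    rw [← ENNReal.add_le_add_iff_right hδT, h5]
    exact h4
  have h6 : ∑' t, S p v t w ≤ K := by
    rw [ENNReal.tsum_eq_iSup_nat]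
    exact iSup_le h3
  exact ne_top_of_le_ne_top (ENNReal.div_ne_top (by simp) hpos) h6

lemma sum_stepLaw (G : Digraph V) (x : V) : ∑ y, stepLaw G x y = 1 := by
  rw [← (stepLaw G x).tsum_coe, tsum_fintype]

lemma stepLaw_ne_zero (G : Digraph V) {x y : V} (h : G.Adj x y) : stepLaw G x y ≠ 0 := by
  classical
  have hne : (Finset.univ.filter (fun y => G.Adj x y)).Nonempty := ⟨y, by simp [h]⟩
  have : stepLaw G x = PMF.uniformOfFinset _ hne := by
    unfold stepLaw
    rw [dif_pos hne]
  rw [this, ← PMF.mem_support_iff, PMF.mem_support_uniformOfFinset_iff]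
  simp [h]

/-- Pointwise form, for a fixed target. -/
theorem hit_le (G : Digraph V) (hG : StronglyConnected G) (k : ℕ) (hk : 1 ≤ k) (u v : V) :
    hit G u v ≤ k * ⨆ x : V, jointHit G (fun _ : Fin k => x) v := by
  classical
  obtain ⟨m, rfl⟩ : ∃ m, k = m + 1 := ⟨k - 1, by omega⟩
  have hfin : ∑' t, S (fun x y => stepLaw G x y) v t u ≠ ∞ := by
    apply tsum_S_ne_top (sum_stepLaw G) v
    intro x
    exact Relation.ReflTransGen.mono (fun a b hab => stepLaw_ne_zero G hab) x v (hG x v)
  have := main_ineq (fun x y => stepLaw G x y) v u hfin m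
  rw [hit_eq]
  simp_rw [jointHit_eq, walkLaw_avoid]
  simpa using this

/-- `h_max ≤ k h^k_max` for every finite strongly connected digraph and every `k ≥ 1`. -/
theorem result (G : Digraph V) (hG : StronglyConnected G) (k : ℕ) (hk : 1 ≤ k) :
    hitMax G ≤ k * jointHitMax G k := by
  refine iSup₂_le fun u v => (hit_le G hG k hk u v).trans ?_
  gcongr
  refine iSup_le fun x => ?_
  exact le_iSup₂ (f := fun (u : Fin k → V) (v : V) => jointHit G u v) (fun _ => x) v


end Pool.Agent.Results.MP_990fd9_pr.HitSpeedup
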